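import Pool.Agent.V1180.Frac2

set_option autoImplicit false
set_option linter.unusedSectionVars false

/-! MP_cfec03_an: exterior determination for bounded measurable fractional conductivities. -/

open Set Filter Topology MeasureTheory Metric
open scoped ContDiff ENNReal

namespace Pool.Agent.Results.MP_cfec03_an.Exterior

open Pool.Agent.V1180.Frac

variable {E : Type} [NormedAddCommGroup E] [InnerProductSpace ℝ E] [FiniteDimensional ℝ E]
  [MeasurableSpace E] [BorelSpace E]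

/-- `u` is the solution `u_f` for the conductivity `γ` and the exterior value `f` -/
def IsSolution (n : ℕ) (s : ℝ) (γ : E → ℝ) (Ω : Set E) (f u : E → ℝ) : Prop :=
  MemHs n s u ∧ MemHtilde n s Ω (fun x => u x - f x) ∧
    ∀ φ, IsTest Ω φ → form n s γ u φ = 0

/-- `Λ_{γ₁} f |_W = Λ_{γ₂} f |_W` for all `f ∈ C_c^∞(W)` -/
def SameDN (n : ℕ) (s : ℝ) (Ω W : Set E) (γ₁ γ₂ : E → ℝ) : Prop :=
  ∀ f, IsTest W f → ∃ u₁ u₂, IsSolution n s γ₁ Ω f u₁ ∧ IsSolution n s γ₂ Ω f u₂ ∧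
    ∀ g, IsTest W g → form n s γ₁ u₁ g = form n s γ₂ u₂ g

/-- `Ω` lies in a slab -/
def BoundedInOneDirection (Ω : Set E) : Prop :=
  ∃ e : E, ‖e‖ = 1 ∧ ∃ a b : ℝ, a < b ∧ ∀ x ∈ Ω, a < inner ℝ x e ∧ inner ℝ x e < b

variable {n : ℕ} {s : ℝ}

/-- tail of the kernel -/
noncomputable def tail (n : ℕ) (s : ℝ) (δ : ℝ) (z : E) : ℝ :=
  {z : E | δ ≤ ‖z‖}.indicator (kern n s) z

theorem tail_nonneg (δ : ℝ) (z : E) : 0 ≤ tail n s δ z :=
  indicator_nonneg (fun _ _ => kern_nonneg _) _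

theorem tail_neg (δ : ℝ) (z : E) : tail n s δ (-z) = tail n s δ z := by
  unfold tail indicator
  simp only [mem_ofPred_eq, norm_neg, kern_neg]

theorem tail_integrable (hn : Module.finrank ℝ E = n) (hn1 : 1 ≤ n) (hs : 0 < s) (hs1 : s < 1)
    {δ : ℝ} (hδ : 0 < δ) : Integrable (tail n s δ : E → ℝ) := by
  have hm : MeasurableSet {z : E | δ ≤ ‖z‖} := measurableSet_le measurable_const measurable_norm
  have h := (kmin_integrable (E := E) hn hn1 hs hs1).const_mul ((min 1 (δ ^ 2))⁻¹)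
  refine h.mono' (kern_measurable.indicator hm).aestronglyMeasurable (ae_of_all _ fun z => ?_)
  rw [Real.norm_of_nonneg (tail_nonneg δ z)]
  have hk := kern_nonneg (n := n) (s := s) z
  have hmin : 0 < min 1 (δ ^ 2) := lt_min zero_lt_one (by positivity)
  unfold tail
  by_cases hz : δ ≤ ‖z‖
  · rw [indicator_of_mem (by exact hz)]
    unfold kmin
    have h1 : min 1 (δ ^ 2) ≤ min 1 (‖z‖ ^ 2) := min_le_min le_rfl (by gcongr)
    calc kern n s z = (min 1 (δ ^ 2))⁻¹ * (min 1 (δ ^ 2) * kern n s z) := by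
          rw [← mul_assoc, inv_mul_cancel₀ hmin.ne', one_mul]
      _ ≤ (min 1 (δ ^ 2))⁻¹ * (min 1 (‖z‖ ^ 2) * kern n s z) := by gcongr
  · rw [indicator_of_notMem (by exact hz)]
    have := kmin_nonneg (n := n) (s := s) z
    positivity

/-- the interaction of `f` (supported away from `Ω`) with `w` -/
theorem cross_le {γ f w : E → ℝ} {Ω K : Set E} {c₀ c₁ δ : ℝ}
    (hn : Module.finrank ℝ E = n) (hn1 : 1 ≤ n) (hs : 0 < s) (hs1 : s < 1)
    (hm : AEStronglyMeasurable γ volume) (hc : 0 < c₀)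
    (hb : ∀ᵐ x, c₀ ≤ γ x ∧ γ x ≤ c₁) (hf : MemHs n s f) (hw : MemHs n s w)
    (hδ : 0 < δ) (hK : ∀ x ∈ K, ∀ y ∈ Ω, δ ≤ ‖x - y‖) (hfK : ∀ x, x ∉ K → f x = 0)
    (hwv : ∀ᵐ x, x ∉ Ω → w x = 0) {t : ℝ} (ht : 0 < t) :
    |form n s γ f w| ≤ Cns n s / 2 * (c₁ * (2 * t * (∫ z : E, tail n s δ z) * ∫ x, f x ^ 2) +
      c₁ * (energy n s w / (2 * t))) := by
  have hγ : Elliptic γ := ⟨hm, c₀, c₁, hc, hb⟩
  have hC := Cns_pos (n := n) hs hs1
  have hti := tail_integrable (E := E) hn hn1 hs hs1 hδ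
  have hf2 : Integrable (fun x => f x ^ 2) := hf.1.integrable_sq
  have i1 : Integrable (fun p : E × E => f p.1 ^ 2 * tail n s δ (p.1 - p.2)) :=
    conv_int' hf2 hti (tail_neg δ)
  have i2 : Integrable (fun p : E × E => f p.2 ^ 2 * tail n s δ (p.1 - p.2)) :=
    conv_int hf2 hti
  have v2 : ∫ p : E × E, f p.2 ^ 2 * tail n s δ (p.1 - p.2) =
      (∫ z : E, tail n s δ z) * ∫ x, f x ^ 2 := by
    have h1 : ∫ p : E × E, f p.2 ^ 2 * tail n s δ (p.1 - p.2) =
        ∫ y, ∫ x, f y ^ 2 * tail n s δ (x - y) := by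
      rw [Measure.volume_eq_prod, integral_prod_symm _ i2]
    rw [h1]
    have h2 : ∀ y : E, ∫ x, f y ^ 2 * tail n s δ (x - y) = (∫ z : E, tail n s δ z) * f y ^ 2 := by
      intro y
      rw [integral_const_mul, integral_sub_right_eq_self (fun x => tail n s δ x) y]
      ring
    simp_rw [h2]
    rw [integral_const_mul]
  have v1 : ∫ p : E × E, f p.1 ^ 2 * tail n s δ (p.1 - p.2) =
      (∫ z : E, tail n s δ z) * ∫ x, f x ^ 2 := by
    have h1 : ∫ p : E × E, f p.1 ^ 2 * tail n s δ (p.1 - p.2) =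
        ∫ x, ∫ y, f x ^ 2 * tail n s δ (x - y) := by
      rw [Measure.volume_eq_prod, integral_prod _ i1]
    rw [h1]
    have h2 : ∀ x : E, ∫ y, f x ^ 2 * tail n s δ (x - y) = (∫ z : E, tail n s δ z) * f x ^ 2 := by
      intro x
      rw [integral_const_mul, integral_sub_left_eq_self (fun y => tail n s δ y) volume x]
      ring
    simp_rw [h2]
    rw [integral_const_mul]
  have i12 : Integrable (fun p : E × E => f p.1 ^ 2 * tail n s δ (p.1 - p.2) +
      f p.2 ^ 2 * tail n s δ (p.1 - p.2)) := i1.add i2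
  have e : c₁ * (2 * t * (∫ z : E, tail n s δ z) * ∫ x, f x ^ 2) +
      c₁ * (energy n s w / (2 * t)) =
      ∫ p : E × E, (c₁ * (t * (f p.1 ^ 2 * tail n s δ (p.1 - p.2) +
        f p.2 ^ 2 * tail n s δ (p.1 - p.2))) +
        c₁ * (((w p.1 - w p.2) ^ 2 * kern n s (p.1 - p.2)) / (2 * t))) := by
    rw [integral_add ((i12.const_mul t).const_mul c₁)
      ((hw.2.div_const (2 * t)).const_mul c₁), integral_const_mul, integral_const_mul,
      integral_add i1 i2, v1, v2, integral_const_mul, integral_div]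
    unfold energy
    ring
  rw [e]
  unfold form
  rw [abs_mul, abs_of_pos (by positivity : 0 < Cns n s / 2)]
  apply mul_le_mul_of_nonneg_left _ (by positivity)
  refine (abs_integral_le_integral_abs).trans ?_
  apply integral_mono_ae (form_int hγ hf hw).abs
    (((i12.const_mul t).const_mul c₁).add ((hw.2.div_const (2 * t)).const_mul c₁))
  filter_upwards [mm_bound hc hb, ae_fst hwv, ae_snd hwv] with p hp hw1 hw2
  obtain ⟨x, y⟩ := p
  simp only at hp hw1 hw2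
  have hk := kern_nonneg (n := n) (s := s) (x - y)
  have hT := tail_nonneg (n := n) (s := s) δ (x - y)
  have h0 : 0 ≤ √(γ x) * √(γ y) := by positivity
  have hc1 : 0 ≤ c₁ := h0.trans hp.2
  simp only [Pi.add_apply]
  rw [abs_mul, abs_mul, abs_of_nonneg h0, abs_of_nonneg hk]
  have hq : 0 ≤ (w x - w y) ^ 2 * kern n s (x - y) / (2 * t) := by positivity
  by_cases hzero : (f x - f y) * (w x - w y) = 0
  · rw [hzero, abs_zero, mul_zero]
    positivity
  · have hfar : δ ≤ ‖x - y‖ := by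
      by_contra hcon
      apply hzero
      by_cases hx : x ∈ K
      · have hyΩ : y ∉ Ω := fun h => hcon (hK x hx y h)
        have hxΩ : x ∉ Ω := fun h => by
          have := hK x hx x h
          simp at this
          linarith
        rw [hw1 hxΩ, hw2 hyΩ]; ring
      · by_cases hy : y ∈ K
        · have hxΩ : x ∉ Ω := fun h => hcon (by rw [norm_sub_rev]; exact hK y hy x h)
          have hyΩ : y ∉ Ω := fun h => by
            have := hK y hy y h
            simp at this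
            linarith
          rw [hw1 hxΩ, hw2 hyΩ]; ring
        · rw [hfK x hx, hfK y hy]; ring
    have hTk : tail n s δ (x - y) = kern n s (x - y) := by
      unfold tail
      rw [indicator_of_mem (by exact hfar)]
    rw [hTk]
    have h1 : |(f x - f y) * (w x - w y)| ≤ t * (f x ^ 2 + f y ^ 2) +
        (w x - w y) ^ 2 / (2 * t) := by
      set c := w x - w y
      have h2 : 0 ≤ (t * (|f x| + |f y|) - |c|) ^ 2 / (2 * t) := by positivity
      have h3 : (t * (|f x| + |f y|) - |c|) ^ 2 / (2 * t) =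
          t * (|f x| + |f y|) ^ 2 / 2 + c ^ 2 / (2 * t) - (|f x| + |f y|) * |c| := by
        field_simp
        nlinarith [sq_abs c]
      have h4 : (|f x| + |f y|) ^ 2 / 2 ≤ f x ^ 2 + f y ^ 2 := by
        nlinarith [sq_nonneg (|f x| - |f y|), sq_abs (f x), sq_abs (f y)]
      have h5 : |f x - f y| ≤ |f x| + |f y| := abs_sub _ _
      rw [abs_mul]
      have h6 : |f x - f y| * |c| ≤ (|f x| + |f y|) * |c| := by gcongr
      have h7 : t * (|f x| + |f y|) ^ 2 / 2 ≤ t * (f x ^ 2 + f y ^ 2) := by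
        rw [mul_div_assoc]; gcongr
      linarith
    calc √(γ x) * √(γ y) * kern n s (x - y) * |(f x - f y) * (w x - w y)|
        ≤ c₁ * kern n s (x - y) * (t * (f x ^ 2 + f y ^ 2) + (w x - w y) ^ 2 / (2 * t)) := by
          apply mul_le_mul (mul_le_mul_of_nonneg_right hp.2 hk) h1 (abs_nonneg _)
          positivity
      _ = _ := by ring

/-- the correction is controlled by the `L²` norm of `f` -/
theorem correction {γ f u : E → ℝ} {Ω K : Set E} {c₀ c₁ δ : ℝ}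
    (hn : Module.finrank ℝ E = n) (hn1 : 1 ≤ n) (hs : 0 < s) (hs1 : s < 1) (hΩ : IsOpen Ω)
    (hm : AEStronglyMeasurable γ volume) (hc : 0 < c₀)
    (hb : ∀ᵐ x, c₀ ≤ γ x ∧ γ x ≤ c₁) (hf : MemHs n s f)
    (hδ : 0 < δ) (hK : ∀ x ∈ K, ∀ y ∈ Ω, δ ≤ ‖x - y‖) (hfK : ∀ x, x ∉ K → f x = 0)
    (hsol : IsSolution n s γ Ω f u) :
    |form n s γ u f - form n s γ f f| ≤
      Cns n s / 2 * (c₁ * (8 * (c₁ / c₀) ^ 2 * (∫ z : E, tail n s δ z) * ∫ x, f x ^ 2)) := by
  obtain ⟨hu, hw, heq⟩ := hsol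
  have hγ : Elliptic γ := ⟨hm, c₀, c₁, hc, hb⟩
  have hC := Cns_pos (n := n) hs hs1
  have hc1 : 0 < c₁ := by
    obtain ⟨x, hx⟩ := hb.exists
    linarith [hx.1, hx.2]
  set w : E → ℝ := fun x => u x - f x with hwdef
  have hu' : (fun x => f x + w x) = u := by ext x; simp [hwdef]
  have hwv := vanish hn hn1 hs hs1 hΩ hw
  have h1 : form n s γ u w = 0 := form_closure hn hn1 hs hs1 hγ hu heq hw
  have h2 : form n s γ u w = form n s γ f w + form n s γ w w := by
    rw [← form_add hγ hf hw.1 hw.1, hu']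
  have h3 : form n s γ u f = form n s γ f f + form n s γ w f := by
    rw [← form_add hγ hf hw.1 hf, hu']
  have h4 : form n s γ w f = - form n s γ w w := by
    rw [form_comm]; linarith
  have hE := energy_nonneg (n := n) (s := s) w
  have h5 := form_ge hs hs1 hm hc hb hw.1
  have h6 := cross_le hn hn1 hs hs1 hm hc hb hf hw.1 hδ hK hfK hwv (t := c₁ / c₀) (by positivity)
  have h7 := form_le hs hs1 hm hc hb hw.1 hw.1 (t := 1) one_pos
  have h8 : form n s γ w w ≤ |form n s γ f w| := by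
    have : form n s γ w w = - form n s γ f w := by linarith
    rw [this]; exact neg_le_abs _
  set T := (∫ z : E, tail n s δ z) with hT
  set F := ∫ x, f x ^ 2 with hF
  have h9 : c₀ * energy n s w ≤ c₁ * (2 * (c₁ / c₀) * T * F) + c₀ * energy n s w / 2 := by
    have h10 : Cns n s / 2 * (c₀ * energy n s w) ≤ Cns n s / 2 *
        (c₁ * (2 * (c₁ / c₀) * T * F) + c₁ * (energy n s w / (2 * (c₁ / c₀)))) :=
      (h5.trans h8).trans h6
    have h11 := le_of_mul_le_mul_left h10 (by positivity)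
    have h12 : c₁ * (energy n s w / (2 * (c₁ / c₀))) = c₀ * energy n s w / 2 := by
      field_simp
    rwa [h12] at h11
  have h13 : energy n s w ≤ 4 * (c₁ / c₀) ^ 2 * T * F := by
    have h14 : c₀ * energy n s w ≤ c₀ * (4 * (c₁ / c₀) ^ 2 * T * F) := by
      have : c₀ * (4 * (c₁ / c₀) ^ 2 * T * F) = 2 * (c₁ * (2 * (c₁ / c₀) * T * F)) := by
        field_simp
        ring
      rw [this]; linarith
    exact le_of_mul_le_mul_left h14 hc
  rw [h3, h4, add_sub_cancel_left, abs_neg]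
  refine h7.trans ?_
  apply mul_le_mul_of_nonneg_left _ (by positivity)
  apply mul_le_mul_of_nonneg_left _ hc1.le
  rw [one_mul, div_one]
  linarith

/-- oscillating test functions -/
noncomputable def fc (s : ℝ) (ξ : E) (ψ : E → ℝ) (R : ℝ) (x : E) : ℝ :=
  R ^ (-s) * (ψ x * Real.cos (R * inner ℝ ξ x))

noncomputable def fs (s : ℝ) (ξ : E) (ψ : E → ℝ) (R : ℝ) (x : E) : ℝ :=
  R ^ (-s) * (ψ x * Real.sin (R * inner ℝ ξ x))

theorem fc_test {W : Set E} {ψ : E → ℝ} (hψ : IsTest W ψ) (ξ : E) (R : ℝ) :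
    IsTest W (fc s ξ ψ R) := by
  unfold fc
  refine ⟨contDiff_const.mul (hψ.1.mul (Real.contDiff_cos.comp
    (contDiff_const.mul (contDiff_const.inner ℝ contDiff_id)))), ?_, ?_⟩
  · exact (hψ.2.1.mul_right).mul_left
  · refine (closure_mono ?_).trans hψ.2.2
    intro x hx h
    apply hx
    simp only
    rw [h]
    ring

theorem fs_test {W : Set E} {ψ : E → ℝ} (hψ : IsTest W ψ) (ξ : E) (R : ℝ) :
    IsTest W (fs s ξ ψ R) := by
  unfold fs
  refine ⟨contDiff_const.mul (hψ.1.mul (Real.contDiff_sin.comp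
    (contDiff_const.mul (contDiff_const.inner ℝ contDiff_id)))), ?_, ?_⟩
  · exact (hψ.2.1.mul_right).mul_left
  · refine (closure_mono ?_).trans hψ.2.2
    intro x hx h
    apply hx
    simp only
    rw [h]
    ring

theorem sq_identity (ξ : E) (ψ : E → ℝ) {R : ℝ} (hR : 0 < R) (x y : E) :
    (fc s ξ ψ R x - fc s ξ ψ R y) ^ 2 + (fs s ξ ψ R x - fs s ξ ψ R y) ^ 2 =
      R ^ (-(2 * s)) * ((ψ x - ψ y) ^ 2 +
        2 * (ψ x * ψ y) * (1 - Real.cos (R * inner ℝ ξ (x - y)))) := by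
  have h1 : R ^ (-(2 * s)) = (R ^ (-s)) ^ 2 := by
    rw [← Real.rpow_natCast, ← Real.rpow_mul hR.le]
    congr 1
    push_cast
    ring
  have h2 : Real.cos (R * inner ℝ ξ (x - y)) = Real.cos (R * inner ℝ ξ x) *
      Real.cos (R * inner ℝ ξ y) + Real.sin (R * inner ℝ ξ x) * Real.sin (R * inner ℝ ξ y) := by
    rw [inner_sub_right, mul_sub, Real.cos_sub]
  rw [h1, h2]
  unfold fc fs
  have c1 := Real.sin_sq_add_cos_sq (R * inner ℝ ξ x)
  have c2 := Real.sin_sq_add_cos_sq (R * inner ℝ ξ y)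
  generalize Real.cos (R * inner ℝ ξ x) = a at *
  generalize Real.sin (R * inner ℝ ξ x) = b at *
  generalize Real.cos (R * inner ℝ ξ y) = c at *
  generalize Real.sin (R * inner ℝ ξ y) = d at *
  linear_combination (R ^ (-s)) ^ 2 * (ψ x ^ 2 * c1 + ψ y ^ 2 * c2)

theorem sq_sum (ξ : E) (ψ : E → ℝ) {R : ℝ} (hR : 0 < R) (x : E) :
    fc s ξ ψ R x ^ 2 + fs s ξ ψ R x ^ 2 = R ^ (-(2 * s)) * ψ x ^ 2 := by
  have h1 : R ^ (-(2 * s)) = (R ^ (-s)) ^ 2 := by
    rw [← Real.rpow_natCast, ← Real.rpow_mul hR.le]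
    congr 1
    push_cast
    ring
  rw [h1]
  unfold fc fs
  have c1 := Real.sin_sq_add_cos_sq (R * inner ℝ ξ x)
  linear_combination (R ^ (-s)) ^ 2 * ψ x ^ 2 * c1

theorem Rpow_tendsto (hs : 0 < s) :
    Tendsto (fun N : ℕ => ((N:ℝ) + 1) ^ (-(2 * s))) atTop (𝓝 0) := by
  have h1 : Tendsto (fun N : ℕ => (N:ℝ) + 1) atTop atTop :=
    tendsto_atTop_add_const_right _ _ tendsto_natCast_atTop_atTop
  exact (tendsto_rpow_neg_atTop (by positivity)).comp h1

/-- limit of the energies of the oscillating functions -/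
theorem main_limit {γ ψ : E → ℝ} {W : Set E} {ξ : E} (hξ : ‖ξ‖ = 1)
    (hn : Module.finrank ℝ E = n) (hn1 : 1 ≤ n) (hs : 0 < s) (hs1 : s < 1)
    (hγ : Elliptic γ) (hψ : IsTest W ψ) :
    Tendsto (fun N : ℕ =>
      form n s γ (fc s ξ ψ ((N:ℝ) + 1)) (fc s ξ ψ ((N:ℝ) + 1)) +
      form n s γ (fs s ξ ψ ((N:ℝ) + 1)) (fs s ξ ψ ((N:ℝ) + 1))) atTop
      (𝓝 (Cns n s * ((∫ z : E, qk n s ξ z) * ∫ x, γ x * ψ x ^ 2))) := by
  obtain ⟨hm, c₀, c₁, hc, hb⟩ := hγ
  have hγ : Elliptic γ := ⟨hm, c₀, c₁, hc, hb⟩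
  have hc1 : 0 < c₁ := by
    obtain ⟨x, hx⟩ := hb.exists
    linarith [hx.1, hx.2]
  -- bounded representative of √γ ψ
  set a : E → ℝ := fun x => min (√(γ x)) (√c₁) * ψ x with ha
  obtain ⟨M, hM⟩ := hψ.2.1.exists_bound_of_continuous hψ.1.continuous
  have hψi : Integrable ψ := hψ.1.continuous.integrable_of_hasCompactSupport hψ.2.1
  have hsm : AEStronglyMeasurable (fun x => min (√(γ x)) (√c₁)) volume :=
    (Real.continuous_sqrt.comp_aestronglyMeasurable hm).inf aestronglyMeasurable_const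
  have hbd1 : ∀ x, ‖min (√(γ x)) (√c₁)‖ ≤ √c₁ := by
    intro x
    rw [Real.norm_of_nonneg (le_min (Real.sqrt_nonneg _) (Real.sqrt_nonneg _))]
    exact min_le_right _ _
  have hai : Integrable a := hψi.bdd_mul (c := √c₁) hsm (ae_of_all _ hbd1)
  have haM : ∀ x, |a x| ≤ √c₁ * M := by
    intro x
    rw [ha, abs_mul]
    exact mul_le_mul (hbd1 x) (hM x) (abs_nonneg _) (Real.sqrt_nonneg _)
  have hae : ∀ᵐ x, a x = √(γ x) * ψ x := by
    filter_upwards [hb] with x hx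
    rw [ha]
    simp only
    rw [min_eq_left (Real.sqrt_le_sqrt hx.2)]
  have hlim := osc_limit (E := E) hn hn1 hs hs1 hξ hai haM
  have hψm := test_memHs hn hn1 hs hs1 hψ
  have hfc : ∀ R, MemHs n s (fc s ξ ψ R) := fun R => test_memHs hn hn1 hs hs1 (fc_test hψ ξ R)
  have hfs : ∀ R, MemHs n s (fs s ξ ψ R) := fun R => test_memHs hn hn1 hs hs1 (fs_test hψ ξ R)
  have e1 : ∀ N : ℕ, form n s γ (fc s ξ ψ ((N:ℝ) + 1)) (fc s ξ ψ ((N:ℝ) + 1)) +
      form n s γ (fs s ξ ψ ((N:ℝ) + 1)) (fs s ξ ψ ((N:ℝ) + 1)) =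
      ((N:ℝ) + 1) ^ (-(2 * s)) * form n s γ ψ ψ +
      Cns n s * ∫ p : E × E, ((N:ℝ) + 1) ^ (-(2 * s)) * (a p.1 * a p.2 *
      (kern n s (p.1 - p.2) * (1 - Real.cos (((N:ℝ) + 1) * inner ℝ ξ (p.1 - p.2))))) := by
    intro N
    set R : ℝ := (N:ℝ) + 1 with hR
    have hR0 : 0 < R := by positivity
    have i1 := form_int hγ (hfc R) (hfc R)
    have i2 := form_int hγ (hfs R) (hfs R)
    have i3 := (form_int hγ hψm hψm).const_mul (R ^ (-(2 * s)))
    have i12 : Integrable (fun p : E × E => √(γ p.1) * √(γ p.2) * kern n s (p.1 - p.2) *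
          ((fc s ξ ψ R p.1 - fc s ξ ψ R p.2) * (fc s ξ ψ R p.1 - fc s ξ ψ R p.2)) +
          √(γ p.1) * √(γ p.2) * kern n s (p.1 - p.2) *
          ((fs s ξ ψ R p.1 - fs s ξ ψ R p.2) * (fs s ξ ψ R p.1 - fs s ξ ψ R p.2))) := i1.add i2
    have e2 : ∫ p : E × E, R ^ (-(2 * s)) * (a p.1 * a p.2 *
        (kern n s (p.1 - p.2) * (1 - Real.cos (R * inner ℝ ξ (p.1 - p.2))))) =
        1 / 2 * ((∫ p : E × E, √(γ p.1) * √(γ p.2) * kern n s (p.1 - p.2) *
          ((fc s ξ ψ R p.1 - fc s ξ ψ R p.2) * (fc s ξ ψ R p.1 - fc s ξ ψ R p.2))) +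
          (∫ p : E × E, √(γ p.1) * √(γ p.2) * kern n s (p.1 - p.2) *
          ((fs s ξ ψ R p.1 - fs s ξ ψ R p.2) * (fs s ξ ψ R p.1 - fs s ξ ψ R p.2))) -
          R ^ (-(2 * s)) * ∫ p : E × E, √(γ p.1) * √(γ p.2) * kern n s (p.1 - p.2) *
          ((ψ p.1 - ψ p.2) * (ψ p.1 - ψ p.2))) := by
      rw [← integral_const_mul (R ^ (-(2 * s))), ← integral_add i1 i2,
        ← integral_sub i12 i3, ← integral_const_mul]
      apply integral_congr_ae
      filter_upwards [ae_fst hae, ae_snd hae] with p h1 h2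
      rw [h1, h2]
      have h3 := sq_identity (s := s) ξ ψ hR0 p.1 p.2
      linear_combination (-1 / 2 * (√(γ p.1) * √(γ p.2) * kern n s (p.1 - p.2))) * h3
    rw [e2]
    unfold form
    ring
  simp_rw [e1]
  have hg : ∫ x, a x ^ 2 = ∫ x, γ x * ψ x ^ 2 := by
    apply integral_congr_ae
    filter_upwards [hae, hb] with x h1 h2
    rw [h1, mul_pow, Real.sq_sqrt (hc.le.trans h2.1)]
  rw [hg] at hlim
  have h5 := ((Rpow_tendsto hs).mul_const (form n s γ ψ ψ)).add (hlim.const_mul (Cns n s))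
  simpa using h5

/-- equality of the weighted integrals of squares -/
theorem squares {γ₁ γ₂ ψ : E → ℝ} {Ω W : Set E} (hn : Module.finrank ℝ E = n) (hn1 : 1 ≤ n)
    (hs : 0 < s) (hs1 : s < 1) (hΩ : IsOpen Ω) (hWΩ : W ⊆ (closure Ω)ᶜ)
    (h1 : Elliptic γ₁) (h2 : Elliptic γ₂) (hDN : SameDN n s Ω W γ₁ γ₂) (hψ : IsTest W ψ) :
    ∫ x, γ₁ x * ψ x ^ 2 = ∫ x, γ₂ x * ψ x ^ 2 := by
  have : Nontrivial E := Module.nontrivial_of_finrank_pos (R := ℝ) (by omega)
  obtain ⟨ξ, hξ⟩ := exists_norm_eq E zero_le_one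
  have hC := Cns_pos (n := n) hs hs1
  have hq := qk_integral_pos (E := E) hn hn1 hs hs1 hξ
  -- distance of the support from Ω
  obtain ⟨δ, hδ, hδ'⟩ := hψ.2.1.exists_cthickening_subset_open isClosed_closure.isOpen_compl
    (hψ.2.2.trans hWΩ)
  have hK : ∀ x ∈ tsupport ψ, ∀ y ∈ Ω, δ ≤ ‖x - y‖ := by
    intro x hx y hy
    by_contra hcon
    push Not at hcon
    have : y ∈ cthickening δ (tsupport ψ) :=
      mem_cthickening_of_dist_le y x δ _ hx (by rw [dist_comm, dist_eq_norm]; exact hcon.le)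
    exact hδ' this (subset_closure hy)
  have L1 := main_limit (W := W) hξ hn hn1 hs hs1 h1 hψ
  have L2 := main_limit (W := W) hξ hn hn1 hs hs1 h2 hψ
  obtain ⟨hm1, a₀, a₁, ha, hb1⟩ := h1
  obtain ⟨hm2, b₀, b₁, hb, hb2⟩ := h2
  set T := (∫ z : E, tail n s δ z) with hT
  set P := ∫ x, ψ x ^ 2 with hP
  have hdiff : ∀ N : ℕ, ‖(form n s γ₁ (fc s ξ ψ ((N:ℝ) + 1)) (fc s ξ ψ ((N:ℝ) + 1)) +
      form n s γ₁ (fs s ξ ψ ((N:ℝ) + 1)) (fs s ξ ψ ((N:ℝ) + 1))) -
      (form n s γ₂ (fc s ξ ψ ((N:ℝ) + 1)) (fc s ξ ψ ((N:ℝ) + 1)) +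
      form n s γ₂ (fs s ξ ψ ((N:ℝ) + 1)) (fs s ξ ψ ((N:ℝ) + 1)))‖ ≤
      (Cns n s / 2 * (a₁ * (8 * (a₁ / a₀) ^ 2 * T)) +
        Cns n s / 2 * (b₁ * (8 * (b₁ / b₀) ^ 2 * T))) * (((N:ℝ) + 1) ^ (-(2 * s)) * P) := by
    intro N
    set R : ℝ := (N:ℝ) + 1 with hR
    have hR0 : 0 < R := by positivity
    have hfcK : ∀ x, x ∉ tsupport ψ → fc s ξ ψ R x = 0 := by
      intro x hx
      unfold fc
      rw [image_eq_zero_of_notMem_tsupport hx]; ring
    have hfsK : ∀ x, x ∉ tsupport ψ → fs s ξ ψ R x = 0 := by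
      intro x hx
      unfold fs
      rw [image_eq_zero_of_notMem_tsupport hx]; ring
    have hfc := fc_test (s := s) hψ ξ R
    have hfs := fs_test (s := s) hψ ξ R
    obtain ⟨u₁, u₂, hu1, hu2, huu⟩ := hDN _ hfc
    obtain ⟨v₁, v₂, hv1, hv2, hvv⟩ := hDN _ hfs
    have hfc' := test_memHs hn hn1 hs hs1 hfc
    have hfs' := test_memHs hn hn1 hs hs1 hfs
    have q1 := correction hn hn1 hs hs1 hΩ hm1 ha hb1 hfc' hδ hK hfcK hu1
    have q2 := correction hn hn1 hs hs1 hΩ hm2 hb hb2 hfc' hδ hK hfcK hu2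
    have q3 := correction hn hn1 hs hs1 hΩ hm1 ha hb1 hfs' hδ hK hfsK hv1
    have q4 := correction hn hn1 hs hs1 hΩ hm2 hb hb2 hfs' hδ hK hfsK hv2
    have z1 := huu _ hfc
    have z2 := hvv _ hfs
    have hsum : (∫ x, fc s ξ ψ R x ^ 2) + ∫ x, fs s ξ ψ R x ^ 2 = R ^ (-(2 * s)) * P := by
      rw [← integral_add hfc'.1.integrable_sq hfs'.1.integrable_sq, hP, ← integral_const_mul]
      congr 1
      ext x
      exact sq_sum ξ ψ hR0 x
    rw [← hsum]
    rw [← hT] at q1 q2 q3 q4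
    set F1 := ∫ x, fc s ξ ψ R x ^ 2
    set F2 := ∫ x, fs s ξ ψ R x ^ 2
    have e : (form n s γ₁ (fc s ξ ψ R) (fc s ξ ψ R) + form n s γ₁ (fs s ξ ψ R) (fs s ξ ψ R)) -
      (form n s γ₂ (fc s ξ ψ R) (fc s ξ ψ R) + form n s γ₂ (fs s ξ ψ R) (fs s ξ ψ R)) =
      -(form n s γ₁ u₁ (fc s ξ ψ R) - form n s γ₁ (fc s ξ ψ R) (fc s ξ ψ R)) +
      (form n s γ₂ u₂ (fc s ξ ψ R) - form n s γ₂ (fc s ξ ψ R) (fc s ξ ψ R)) +
      (-(form n s γ₁ v₁ (fs s ξ ψ R) - form n s γ₁ (fs s ξ ψ R) (fs s ξ ψ R)) +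
      (form n s γ₂ v₂ (fs s ξ ψ R) - form n s γ₂ (fs s ξ ψ R) (fs s ξ ψ R))) := by
      rw [z1, z2]; ring
    rw [e, Real.norm_eq_abs]
    refine (abs_add_le _ _).trans ((add_le_add (abs_add_le _ _) (abs_add_le _ _)).trans ?_)
    rw [abs_neg, abs_neg]
    linarith
  have hz : Tendsto (fun N : ℕ => (Cns n s / 2 * (a₁ * (8 * (a₁ / a₀) ^ 2 * T)) +
        Cns n s / 2 * (b₁ * (8 * (b₁ / b₀) ^ 2 * T))) * (((N:ℝ) + 1) ^ (-(2 * s)) * P))
        atTop (𝓝 0) := by
    have := ((Rpow_tendsto hs).mul_const P).const_mul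
      (Cns n s / 2 * (a₁ * (8 * (a₁ / a₀) ^ 2 * T)) +
        Cns n s / 2 * (b₁ * (8 * (b₁ / b₀) ^ 2 * T)))
    simpa using this
  have h0 := squeeze_zero_norm hdiff hz
  have h3 := tendsto_nhds_unique (L1.sub L2) h0
  have h4 : Cns n s * (∫ z : E, qk n s ξ z) *
      ((∫ x, γ₁ x * ψ x ^ 2) - ∫ x, γ₂ x * ψ x ^ 2) = 0 := by
    linarith
  rcases mul_eq_zero.1 h4 with h | h
  · exact absurd h (mul_pos hC hq).ne'
  · linarith

theorem test_add {W : Set E} {f g : E → ℝ} (hf : IsTest W f) (hg : IsTest W g) :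
    IsTest W (fun x => f x + g x) :=
  ⟨hf.1.add hg.1, hf.2.1.add hg.2.1,
    (tsupport_add f g).trans (union_subset hf.2.2 hg.2.2)⟩

/-- general version in a Euclidean space -/
theorem main {γ₁ γ₂ : E → ℝ} {Ω W : Set E} (hn : Module.finrank ℝ E = n) (hn1 : 1 ≤ n)
    (hs : 0 < s) (hs1 : s < 1) (hΩ : IsOpen Ω) (hW : IsOpen W) (hWΩ : W ⊆ (closure Ω)ᶜ)
    (h1 : Elliptic γ₁) (h2 : Elliptic γ₂) (hDN : SameDN n s Ω W γ₁ γ₂) :
    ∀ᵐ x ∂(volume.restrict W), γ₁ x = γ₂ x := by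
  have hloc : ∀ {γ : E → ℝ}, Elliptic γ → ∀ {ψ : E → ℝ}, IsTest W ψ →
      Integrable (fun x => γ x * ψ x) := by
    intro γ hγ ψ hψ
    obtain ⟨hm, c₀, c₁, hc, hb⟩ := hγ
    have hψi : Integrable ψ := hψ.1.continuous.integrable_of_hasCompactSupport hψ.2.1
    apply hψi.bdd_mul (c := c₁) hm
    filter_upwards [hb] with x hx
    rw [Real.norm_of_nonneg (hc.le.trans hx.1)]
    exact hx.2
  have hlocsq : ∀ {γ : E → ℝ}, Elliptic γ → ∀ {ψ η : E → ℝ}, IsTest W ψ → IsTest W η →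
      Integrable (fun x => γ x * (ψ x * η x)) := by
    intro γ hγ ψ η hψ hη
    obtain ⟨hm, c₀, c₁, hc, hb⟩ := hγ
    have hψi : Integrable (fun x => ψ x * η x) :=
      (hψ.1.continuous.mul hη.1.continuous).integrable_of_hasCompactSupport hψ.2.1.mul_right
    apply hψi.bdd_mul (c := c₁) hm
    filter_upwards [hb] with x hx
    rw [Real.norm_of_nonneg (hc.le.trans hx.1)]
    exact hx.2
  rw [ae_restrict_iff' hW.measurableSet]
  have hnull : volume (W ∩ {x | γ₁ x ≠ γ₂ x}) = 0 := by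
    apply measure_null_of_locally_null
    rintro x ⟨hxW, -⟩
    obtain ⟨r, hr, hrW⟩ := Metric.isOpen_iff.1 hW x hxW
    let f : ContDiffBump x := ⟨r / 4, r / 2, by positivity, by linarith⟩
    have hfW : IsTest W f := by
      refine ⟨f.contDiff, f.hasCompactSupport, ?_⟩
      rw [f.tsupport_eq]
      exact (closedBall_subset_ball (by change r / 2 < r; linarith)).trans hrW
    have hball : ball x (r / 4) ⊆ W := (ball_subset_ball (by linarith)).trans hrW
    have key : ∀ᵐ y, y ∈ ball x (r / 4) → γ₁ y - γ₂ y = 0 := by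
      apply isOpen_ball.ae_eq_zero_of_integral_contDiff_smul_eq_zero
      · have hli : ∀ {γ : E → ℝ}, Elliptic γ → IntegrableOn γ (ball x (r / 4)) := by
          intro γ hγ
          have h3 := (hloc hγ hfW).integrableOn (s := ball x (r / 4))
          refine h3.congr_fun ?_ measurableSet_ball
          intro y hy
          have : f y = 1 := f.one_of_mem_closedBall (ball_subset_closedBall hy)
          simp only
          rw [this, mul_one]
        exact ((hli h1).sub (hli h2)).locallyIntegrableOn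
      · intro g hg hgc hgs
        have hgt : IsTest W g := ⟨hg, hgc, hgs.trans hball⟩
        have hgf : ∀ y, g y * f y = g y := by
          intro y
          by_cases hy : y ∈ ball x (r / 4)
          · rw [f.one_of_mem_closedBall (ball_subset_closedBall hy), mul_one]
          · rw [image_eq_zero_of_notMem_tsupport fun h => hy (hgs h), zero_mul]
        have s1 := squares hn hn1 hs hs1 hΩ hWΩ h1 h2 hDN (test_add hgt hfW)
        have s2 := squares hn hn1 hs hs1 hΩ hWΩ h1 h2 hDN hgt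
        have s3 := squares hn hn1 hs hs1 hΩ hWΩ h1 h2 hDN hfW
        have ex : ∀ {γ : E → ℝ}, Elliptic γ → ∫ y, γ y * (g y + f y) ^ 2 =
            (∫ y, γ y * g y ^ 2) + 2 * (∫ y, γ y * g y) + ∫ y, γ y * f y ^ 2 := by
          intro γ hγ
          have i1 : Integrable (fun y => γ y * g y ^ 2) := by
            refine (hlocsq hγ hgt hgt).congr (ae_of_all _ fun y => ?_)
            simp only; ring
          have i3 : Integrable (fun y => γ y * f y ^ 2) := by
            refine (hlocsq hγ hfW hfW).congr (ae_of_all _ fun y => ?_)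
            simp only; ring
          have i2 : Integrable (fun y => 2 * (γ y * g y)) := (hloc hγ hgt).const_mul 2
          have i12 : Integrable (fun y => γ y * g y ^ 2 + 2 * (γ y * g y)) := i1.add i2
          rw [← integral_const_mul, ← integral_add i1 i2, ← integral_add i12 i3]
          congr 1
          ext y
          have := hgf y
          linear_combination (2 * γ y) * this
        rw [ex h1, ex h2] at s1
        have s4 : ∫ y, γ₁ y * g y = ∫ y, γ₂ y * g y := by linarith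
        have : ∫ y, g y • (γ₁ y - γ₂ y) = (∫ y, γ₁ y * g y) - ∫ y, γ₂ y * g y := by
          rw [← integral_sub (hloc h1 hgt) (hloc h2 hgt)]
          congr 1
          ext y
          simp only [smul_eq_mul]
          ring
        rw [this, s4, sub_self]
    refine ⟨ball x (r / 4) ∩ (W ∩ {x | γ₁ x ≠ γ₂ x}), ?_, ?_⟩
    · exact inter_mem (mem_nhdsWithin_of_mem_nhds (ball_mem_nhds x (by positivity)))
        self_mem_nhdsWithin
    · refine measure_mono_null ?_ (ae_iff.1 key)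
      rintro y ⟨hy, -, hne⟩
      simp only [mem_ofPred_eq, Classical.not_imp]
      exact ⟨hy, sub_ne_zero.2 hne⟩
  rw [ae_iff]
  refine measure_mono_null ?_ hnull
  intro y hy
  simp only [mem_ofPred_eq, Classical.not_imp] at hy
  exact ⟨hy.1, hy.2⟩

theorem result {n : ℕ} (hn : 1 ≤ n) {s : ℝ} (hs : 0 < s) (hs1 : s < 1) (_hsn : s < n / 2)
    (Ω W : Set (EuclideanSpace ℝ (Fin n))) (hΩ : IsOpen Ω) (_hb : BoundedInOneDirection Ω)
    (hW : IsOpen W) (hWΩ : W ⊆ (closure Ω)ᶜ) (γ₁ γ₂ : EuclideanSpace ℝ (Fin n) → ℝ)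
    (h1 : Elliptic γ₁) (h2 : Elliptic γ₂) (hDN : SameDN n s Ω W γ₁ γ₂) :
    ∀ᵐ x ∂(volume.restrict W), γ₁ x = γ₂ x :=
  main (by simp) hn hs hs1 hΩ hW hWΩ h1 h2 hDN

end Pool.Agent.Results.MP_cfec03_an.Exterior
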